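import Pool.Agent.Lib.MP_6bdaeb_co.Final

/-!
# Linear soficity fails: the first question has a negative answer
-/

open Pool.Agent.Lib.MP_6bdaeb_co

/-- There is an infinite connected vertex-transitive graph `G` of degree 20 with `D_G(r)` finite
for all `r` and `D_G(r) ≥ 2 ^ ⌊r / 9⌋` for all `r ≥ 200`; in particular no constant `c` has
`D_G(r) ≤ c r` for all `r ≥ 1`. -/
theorem Pool.Agent.Results.MP_6bdaeb_co.QuestionOne.result :
    ∃ (V : Type) (G : SimpleGraph V), Infinite V ∧ G.Connected ∧ VertexTransitive G ∧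
      (∀ v, (G.neighborSet v).ncard = 20) ∧ (∀ r, 1 ≤ r → D G r < ⊤) ∧
      (∀ r, 200 ≤ r → ((2 ^ (r / 9) : ℕ) : ℕ∞) ≤ D G r) ∧
      ¬ ∃ c : ℕ, ∀ r, 1 ≤ r → D G r ≤ ((c * r : ℕ) : ℕ∞) := by
  obtain ⟨V, G, h1, h2, h3, h4, h5, h6, h7⟩ := main_one
  exact ⟨V, G, h1, h2, h4, h3, fun r _ => h5 r, h6, h7⟩
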