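import Pool.Agent.Lib.MP_6bdaeb_co.Final

/-!
# Linear soficity fails: the second question has a negative answer
-/

open Pool.Agent.Lib.MP_6bdaeb_co

/-- For every `r ≥ 200` there is a finite connected vertex-transitive graph `H` of degree 20 such
that every finite connected vertex-transitive graph with the same `r`-ball as `H` has diameter at
least `2 ^ ⌊r / 9⌋`. So for `d = 20` no constant `c(d)` exists. -/
theorem Pool.Agent.Results.MP_6bdaeb_co.QuestionTwo.result :
    (∀ r, 200 ≤ r → ∃ (V : Type) (_ : Finite V) (H : SimpleGraph V),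
      H.Connected ∧ VertexTransitive H ∧ (∀ v, (H.neighborSet v).ncard = 20) ∧
      ∀ (W : Type) (_ : Finite W) (H' : SimpleGraph W), H'.Connected → VertexTransitive H' →
        SameBall r H H' → ((2 ^ (r / 9) : ℕ) : ℕ∞) ≤ H'.ediam) ∧
    ¬ ∃ c : ℕ, ∀ (V : Type) (_ : Finite V) (H : SimpleGraph V),
      H.Connected → VertexTransitive H → (∀ v, (H.neighborSet v).ncard = 20) → ∀ r, 1 ≤ r →
      ∃ (W : Type) (_ : Finite W) (H' : SimpleGraph W), H'.Connected ∧ VertexTransitive H' ∧
        SameBall r H H' ∧ H'.ediam ≤ ((c * r : ℕ) : ℕ∞) :=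
  ⟨main_two, main_two'⟩
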